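import Pool.Agent.H95.Rot2

set_option autoImplicit false

open Pool.Agent.H95.Rot

theorem Pool.Agent.Results.MP_4b601f_co.Down.result :
    (∀ (b r : List ℕ → ℕ) (v : List ℕ),
      ∃ c, ∀ᶠ t in Filter.atTop, (traj b r t).2 v = c) ∧
    ∀ b r : List ℕ → ℕ, (∀ v, r v ≤ b v) → ∀ e' : ℕ → Prop, (∀ n, e' n → esc b r n) →
      ∃ r' : List ℕ → ℕ, (∀ v, r' v ≤ b v) ∧ ∀ n, esc b r' n ↔ e' n :=
  ⟨fun b r v => conv v b r, main⟩
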